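import Mathlib

/-!
# Peeling (MP_17ebaf_lc): definitions

`r i j` means that job `i` has to be finished before job `j` starts.
-/

namespace Pool.Agent.Helper57.PL

open Finset
open scoped Classical

variable {J : Type}

/-- The jobs of `P` have a schedule which fills the `e` slots `0, ..., e - 1` with exactly `m`
jobs each. -/
def Full (r : J → J → Prop) (m : ℕ) (P : Finset J) (e : ℕ) : Prop :=
  ∃ S : J → ℕ, (∀ j ∈ P, S j < e) ∧ (∀ t < e, (P.filter fun j => S j = t).card = m) ∧
    ∀ i ∈ P, ∀ j ∈ P, r i j → S i < S j

/-- The jobs of `P` which have a successor in `P`. -/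
noncomputable def low (r : J → J → Prop) (P : Finset J) : Finset J :=
  P.filter fun x => ∃ y ∈ P, r x y

/-- `After r c y`: `c = none`, or `c = some X` and `y` is a successor of a job of `X`. -/
def After (r : J → J → Prop) (c : Option (Finset J)) (y : J) : Prop :=
  ∀ X, c = some X → ∃ x ∈ X, r x y

/-- The jobs of `low r P` after `c` which are not in `X` and not successors of jobs of `X`. -/
noncomputable def piece (r : J → J → Prop) (P : Finset J) (c : Option (Finset J))
    (X : Finset J) : Finset J :=
  (low r P).filter fun y => After r c y ∧ ∀ x ∈ X, x ≠ y ∧ ¬ r x y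

/-- The checkpoints found for the jobs of `P` and `e` slots. `(0, none)` is a checkpoint.  Let
`(t, c)` be a checkpoint, `t ≤ t' < e`, and let `X` be an antichain of less than `m` jobs of
`low r P` after `c`, such that `F` accepts the piece between `c` and `X` in `t' - t` slots and at
most `m (e - (t' + 1))` jobs of `P` are successors of jobs of `X`.  Then `(t' + 1, some X)` is a
checkpoint. -/
inductive Reach (F : Finset J → ℕ → Prop) (r : J → J → Prop) (m : ℕ) (P : Finset J) (e : ℕ) :
    ℕ → Option (Finset J) → Prop
  | start : Reach F r m P e 0 none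
  | step (t t' : ℕ) (c : Option (Finset J)) (X : Finset J) (h : Reach F r m P e t c)
      (h1 : t ≤ t') (h2 : t' < e) (h3 : ∀ x ∈ X, x ∈ low r P ∧ After r c x) (h4 : X.card < m)
      (h5 : ∀ x ∈ X, ∀ y ∈ X, ¬ r x y) (h6 : F (piece r P c X) (t' - t))
      (h7 : (P.filter fun y => ∃ x ∈ X, r x y).card ≤ m * (e - (t' + 1))) :
      Reach F r m P e (t' + 1) (some X)

/-- Peeling off the jobs of `P` without successors in `P`: `P` has `m e` jobs, and for some
checkpoint `(t, c)` the rest of `low r P` is accepted by `F` in `e - t` slots. -/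
def Peel (F : Finset J → ℕ → Prop) (r : J → J → Prop) (m : ℕ) (P : Finset J) (e : ℕ) : Prop :=
  P.card = m * e ∧ ∃ t c, Reach F r m P e t c ∧ t ≤ e ∧ F (piece r P c ∅) (e - t)

/-- Dynamic programming without peeling: `Dp r m P t` are the sets of `m t` jobs which can be
processed in the first `t` slots of a schedule of `P` with full slots.  A set `I` is followed by
`I ∪ X`, `X` a set of `m` jobs of `P` outside `I` all of whose predecessors in `P` are in `I`. -/
noncomputable def Dp (r : J → J → Prop) (m : ℕ) (P : Finset J) : ℕ → Finset (Finset J)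
  | 0 => {∅}
  | t + 1 => ((Dp r m P t ×ˢ P.powerset).filter fun p => Disjoint p.1 p.2 ∧ p.2.card = m ∧
      ∀ x ∈ p.2, ∀ y ∈ P, r y x → y ∈ p.1).image fun p => p.1 ∪ p.2

/-- `k` peelings, the order is reversed after each of them; for the sets which are left over the
test `F` is used. -/
def Solve (F : Finset J → ℕ → Prop) (m : ℕ) : ℕ → (J → J → Prop) → Finset J → ℕ → Prop
  | 0, _ => F
  | k + 1, r => Peel (Solve F m k fun a b => r b a) r m

/-- The sets of less than `m` jobs of `P`. -/
noncomputable def small (m : ℕ) (P : Finset J) : Finset (Finset J) :=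
  P.powerset.filter fun X => X.card < m

/-- The possible second components of checkpoints for `P`. -/
noncomputable def cps (m : ℕ) (P : Finset J) : Finset (Option (Finset J)) :=
  insert none ((small m P).image some)

/-- The pieces of `P`. -/
noncomputable def pieces (r : J → J → Prop) (m : ℕ) (P : Finset J) : Finset (Finset J) :=
  (cps m P ×ˢ small m P).image fun p => piece r P p.1 p.2

/-- The sets at depth `k`: starting with the sets of `𝓕`, take `k` times all pieces of all sets,
the order being reversed after each time. -/
noncomputable def fam (m : ℕ) : ℕ → (J → J → Prop) → Finset (Finset J) → Finset (Finset J)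
  | 0, _, 𝓕 => 𝓕
  | k + 1, r, 𝓕 => fam m k (fun a b => r b a) (𝓕.biUnion (pieces r m))

/-- `Has r k x`: there is a chain of `k` jobs above `x`. -/
def Has (r : J → J → Prop) : ℕ → J → Prop
  | 0, _ => True
  | k + 1, x => ∃ y, r x y ∧ Has r k y

/-- The jobs which have a chain of `l` jobs above and a chain of `l` jobs below. -/
def Mid (r : J → J → Prop) (l : ℕ) (x : J) : Prop :=
  Has r l x ∧ Has (fun a b => r b a) l x

/-- There is a feasible schedule of the jobs `Fin n` (unit processing times, precedence
constraints `r`) on `m` identical machines with makespan at most `T`. -/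
def Feasible {n : ℕ} (r : Fin n → Fin n → Prop) (m T : ℕ) : Prop :=
  ∃ S : Fin n → ℕ, (∀ t, (univ.filter fun j => S j = t).card ≤ m) ∧
    (∀ i j, r i j → S i + 1 ≤ S j) ∧ ∀ j, S j + 1 ≤ T

/-- The instance `r` filled up to `N` jobs by jobs without predecessors and successors. -/
def pad {n : ℕ} (r : Fin n → Fin n → Prop) (N : ℕ) (i j : Fin N) : Prop :=
  ∃ (hi : i.1 < n) (hj : j.1 < n), r ⟨i.1, hi⟩ ⟨j.1, hj⟩

end Pool.Agent.Helper57.PL
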