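import Pool.Agent.Helper57.PL.Peel3

/-! # Peeling: several levels, the sets which occur -/

namespace Pool.Agent.Helper57.PL

open Finset
open scoped Classical

variable {J : Type}

theorem peel_iff (r : J → J → Prop) (htr : ∀ a b c, r a b → r b c → r a c)
    (m : ℕ) (P : Finset J) (e : ℕ) : Peel (Full r m) r m P e ↔ Full r m P e :=
  ⟨full_of_peel r htr m P e, peel_of_full r htr m P e⟩

theorem fam_mono (m : ℕ) : ∀ (k : ℕ) (r : J → J → Prop) (𝓕 𝓖 : Finset (Finset J)), 𝓕 ⊆ 𝓖 →
    fam m k r 𝓕 ⊆ fam m k r 𝓖 := by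
  intro k
  induction k with
  | zero => exact fun _ _ _ h => h
  | succ k ih => exact fun r 𝓕 𝓖 h => ih _ _ _ (biUnion_subset_biUnion_of_subset_left _ h)

theorem reach_cps (F : Finset J → ℕ → Prop) (r : J → J → Prop) (m : ℕ) (P : Finset J) (e t : ℕ)
    (c : Option (Finset J)) (h : Reach F r m P e t c) : t ≤ e ∧ c ∈ cps m P := by
  cases h with
  | start => exact ⟨Nat.zero_le _, mem_insert_self _ _⟩
  | step t t' c X h h1 h2 h3 h4 h5 h6 h7 =>
    refine ⟨h2, mem_insert_of_mem (mem_image_of_mem _ ?_)⟩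
    unfold small
    rw [mem_filter, mem_powerset]
    exact ⟨fun x hx => (mem_low.1 (h3 x hx).1).1, h4⟩

theorem reach_congr (F F' : Finset J → ℕ → Prop) (r : J → J → Prop) (m : ℕ) (P : Finset J)
    (e : ℕ) (hF : ∀ Q ∈ pieces r m P, ∀ s ≤ e, (F Q s → F' Q s)) (t : ℕ) (c : Option (Finset J))
    (h : Reach F r m P e t c) : Reach F' r m P e t c := by
  induction h with
  | start => exact Reach.start
  | step t t' c X h h1 h2 h3 h4 h5 h6 h7 ih =>
    refine Reach.step t t' c X ih h1 h2 h3 h4 h5 (hF _ ?_ _ (by omega) h6) h7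
    refine mem_image_of_mem (fun p : Option (Finset J) × Finset J => piece r P p.1 p.2)
      (a := (c, X)) (mem_product.2 ⟨(reach_cps F r m P e t c h).2, ?_⟩)
    show X ∈ small m P
    unfold small
    rw [mem_filter, mem_powerset]
    exact ⟨fun x hx => (mem_low.1 (h3 x hx).1).1, h4⟩

theorem peel_congr (F F' : Finset J → ℕ → Prop) (r : J → J → Prop) (m : ℕ) (hm : 1 ≤ m)
    (P : Finset J) (e : ℕ) (hF : ∀ Q ∈ pieces r m P, ∀ s ≤ e, (F Q s → F' Q s))
    (h : Peel F r m P e) : Peel F' r m P e := by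
  obtain ⟨h1, t, c, h2, h3, h4⟩ := h
  refine ⟨h1, t, c, reach_congr F F' r m P e hF t c h2, h3, hF _ ?_ _ (by omega) h4⟩
  refine mem_image_of_mem (fun p : Option (Finset J) × Finset J => piece r P p.1 p.2)
    (a := (c, ∅)) (mem_product.2 ⟨(reach_cps F r m P e t c h2).2, ?_⟩)
  show (∅ : Finset J) ∈ small m P
  unfold small
  rw [mem_filter, mem_powerset]
  exact ⟨empty_subset _, by rw [card_empty]; omega⟩

theorem full_rev_aux (r : J → J → Prop) (m : ℕ) (P : Finset J) (e : ℕ)
    (h : Full r m P e) : Full (fun a b => r b a) m P e := by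
  obtain ⟨S, h1, h2, h3⟩ := h
  refine ⟨fun j => e - 1 - S j, ?_, ?_, ?_⟩
  · intro j hj
    have := h1 j hj
    show e - 1 - S j < e
    omega
  · intro t ht
    rw [← h2 (e - 1 - t) (by omega)]
    congr 1
    ext j
    rw [mem_filter, mem_filter]
    constructor
    · rintro ⟨h4, h5⟩
      have := h1 j h4
      have h5' : e - 1 - S j = t := h5
      exact ⟨h4, by omega⟩
    · rintro ⟨h4, h5⟩
      refine ⟨h4, ?_⟩
      show e - 1 - S j = t
      omega
  · intro i hi j hj hij
    have h4 := h3 j hj i hi hij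
    have h5 := h1 i hi
    show e - 1 - S i < e - 1 - S j
    omega

theorem full_rev (r : J → J → Prop) (m : ℕ) (P : Finset J) (e : ℕ) :
    Full (fun a b => r b a) m P e ↔ Full r m P e :=
  ⟨full_rev_aux (fun a b => r b a) m P e, full_rev_aux r m P e⟩

theorem pieces_sub (r : J → J → Prop) (m : ℕ) (P Q : Finset J) (h : Q ∈ pieces r m P) :
    ∀ x ∈ Q, x ∈ low r P := by
  unfold pieces at h
  rw [mem_image] at h
  obtain ⟨p, _, rfl⟩ := h
  intro x hx
  exact (mem_piece.1 hx).1

theorem fam_hered (m : ℕ) (p : J → Prop) : ∀ (k : ℕ) (r : J → J → Prop)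
    (𝓕 : Finset (Finset J)), (∀ P ∈ 𝓕, ∀ x ∈ P, p x) → ∀ Q ∈ fam m k r 𝓕, ∀ x ∈ Q, p x := by
  intro k
  induction k with
  | zero => exact fun r 𝓕 h Q hQ x hx => h Q hQ x hx
  | succ k ih =>
    intro r 𝓕 h Q hQ x hx
    refine ih _ (𝓕.biUnion (pieces r m)) ?_ Q hQ x hx
    intro P hP x hx
    rw [mem_biUnion] at hP
    obtain ⟨R, hR, hP⟩ := hP
    exact h R hR x (mem_low.1 (pieces_sub r m R P hP x hx)).1

/-- After `2 l` peelings only jobs of the middle are left. -/
theorem fam_mid (r : J → J → Prop) (m : ℕ) : ∀ (l i j : ℕ) (𝓕 : Finset (Finset J)),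
    (∀ P ∈ 𝓕, ∀ x ∈ P, Has r i x ∧ Has (fun a b => r b a) j x) →
    ∀ Q ∈ fam m (2 * l) r 𝓕, ∀ x ∈ Q, Has r (i + l) x ∧ Has (fun a b => r b a) (j + l) x := by
  intro l
  induction l with
  | zero => exact fun i j 𝓕 h Q hQ x hx => h Q hQ x hx
  | succ l ih =>
    intro i j 𝓕 h Q hQ x hx
    have h1 := ih (i + 1) (j + 1)
      ((𝓕.biUnion (pieces r m)).biUnion (pieces (fun a b => r b a) m)) (by
      intro P hP x hx
      rw [mem_biUnion] at hP
      obtain ⟨R, hR, hP⟩ := hP
      obtain ⟨hxR, y, hy, hxy⟩ := mem_low.1 (pieces_sub _ m R P hP x hx)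
      rw [mem_biUnion] at hR
      obtain ⟨R', hR', hRR'⟩ := hR
      obtain ⟨hxR', z, hz, hxz⟩ := mem_low.1 (pieces_sub _ m R' R hRR' x hxR)
      obtain ⟨hyR', _⟩ := mem_low.1 (pieces_sub _ m R' R hRR' y hy)
      exact ⟨⟨z, hxz, (h R' hR' z hz).1⟩, ⟨y, hxy, (h R' hR' y hyR').2⟩⟩) Q hQ x hx
    have e1 : i + (l + 1) = i + 1 + l := by omega
    have e2 : j + (l + 1) = j + 1 + l := by omega
    rw [e1, e2]
    exact h1

/-- There are at most `(N + 1) ^ k` subsets of at most `k` elements of a set of `N` elements. -/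
theorem card_sub [Fintype J] (k : ℕ) :
    (univ.filter fun X : Finset J => X.card ≤ k).card ≤ (Fintype.card J + 1) ^ k := by
  have h : (univ.filter fun X : Finset J => X.card ≤ k).card ≤
      (univ : Finset (Fin k → Option J)).card := by
    apply card_le_card_of_surjOn (fun g => univ.filter fun x => ∃ c, g c = some x)
    intro X hX
    have hX' : X.card ≤ k := by simpa using hX
    refine ⟨fun c => if h : c.1 < X.card then some (X.equivFin.symm ⟨c.1, h⟩).1 else none,
      by simp, ?_⟩
    ext x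
    simp only [mem_filter, mem_univ, true_and]
    constructor
    · rintro ⟨c, hc⟩
      by_cases h : c.1 < X.card
      · rw [dif_pos h] at hc
        have h2 := Option.some.inj hc
        rw [← h2]
        exact (X.equivFin.symm ⟨c.1, h⟩).2
      · rw [dif_neg h] at hc
        exact absurd hc (by simp)
    · intro hx
      have h1 := (X.equivFin ⟨x, hx⟩).2
      refine ⟨⟨(X.equivFin ⟨x, hx⟩).1, by omega⟩, ?_⟩
      simp only [h1, dif_pos]
      simp
  refine h.trans ?_
  rw [card_univ, Fintype.card_fun, Fintype.card_option, Fintype.card_fin]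

theorem card_small [Fintype J] (m : ℕ) (P : Finset J) :
    (small m P).card ≤ (Fintype.card J + 1) ^ (m - 1) := by
  refine le_trans (card_le_card ?_) (card_sub (J := J) (m - 1))
  intro X hX
  unfold small at hX
  rw [mem_filter] at hX ⊢
  refine ⟨mem_univ _, ?_⟩
  omega

theorem card_cps [Fintype J] (m : ℕ) (P : Finset J) :
    (cps m P).card ≤ 2 * (Fintype.card J + 1) ^ (m - 1) := by
  have h1 : (cps m P).card ≤ ((small m P).image some).card + 1 := card_insert_le _ _
  have h2 : ((small m P).image some).card ≤ (small m P).card := card_image_le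
  have h3 := card_small (J := J) m P
  have h4 : 1 ≤ (Fintype.card J + 1) ^ (m - 1) := Nat.one_le_pow _ _ (by omega)
  omega

theorem card_pieces [Fintype J] (r : J → J → Prop) (m : ℕ) (P : Finset J) :
    (pieces r m P).card ≤ 2 * (Fintype.card J + 1) ^ (2 * (m - 1)) := by
  have h1 : (pieces r m P).card ≤ (cps m P ×ˢ small m P).card := card_image_le
  rw [card_product] at h1
  have h2 := Nat.mul_le_mul (card_cps (J := J) m P) (card_small (J := J) m P)
  refine h1.trans (h2.trans (le_of_eq ?_))
  rw [mul_assoc, ← pow_add]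
  congr 2
  omega

theorem card_fam [Fintype J] (m : ℕ) : ∀ (k : ℕ) (r : J → J → Prop) (𝓕 : Finset (Finset J)),
    (fam m k r 𝓕).card ≤ 𝓕.card * (2 * (Fintype.card J + 1) ^ (2 * (m - 1))) ^ k := by
  intro k
  induction k with
  | zero =>
    intro r 𝓕
    rw [pow_zero, mul_one]
    exact le_rfl
  | succ k ih =>
    intro r 𝓕
    refine (ih _ _).trans ?_
    rw [pow_succ', ← mul_assoc]
    apply Nat.mul_le_mul_right
    refine card_biUnion_le.trans ?_
    rw [← smul_eq_mul]
    exact sum_le_card_nsmul _ _ _ (fun P _ => card_pieces r m P)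

/-! ### Dynamic programming -/

theorem mem_dp_succ (r : J → J → Prop) (m : ℕ) (P : Finset J) (t : ℕ) (K : Finset J) :
    K ∈ Dp r m P (t + 1) ↔ ∃ I ∈ Dp r m P t, I ⊆ K ∧ (∀ x ∈ K, x ∉ I → x ∈ P) ∧
      (K.filter fun x => x ∉ I).card = m ∧ ∀ x ∈ K, x ∉ I → ∀ y ∈ P, r y x → y ∈ I := by
  simp only [Dp, mem_image, mem_filter, mem_product, mem_powerset, Prod.exists]
  constructor
  · rintro ⟨I, X, ⟨⟨h1, h2⟩, h3, h4, h5⟩, rfl⟩
    have e : ∀ x, x ∈ I ∪ X → x ∉ I → x ∈ X := by
      intro x hx hxI
      exact (mem_union.1 hx).resolve_left hxI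
    refine ⟨I, h1, subset_union_left, fun x hx hxI => h2 (e x hx hxI), ?_,
      fun x hx hxI => h5 x (e x hx hxI)⟩
    rw [← h4]
    congr 1
    ext x
    rw [mem_filter]
    constructor
    · rintro ⟨h6, h7⟩
      exact e x h6 h7
    · intro h6
      exact ⟨mem_union_right _ h6, fun h7 => (disjoint_left.1 h3 h7) h6⟩
  · rintro ⟨I, h1, h2, h3, h4, h5⟩
    refine ⟨I, K.filter fun x => x ∉ I, ⟨⟨h1, ?_⟩, ?_, h4, ?_⟩, ?_⟩
    · intro x hx
      rw [mem_filter] at hx
      exact h3 x hx.1 hx.2
    · rw [disjoint_left]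
      intro x hx hx'
      rw [mem_filter] at hx'
      exact hx'.2 hx
    · intro x hx
      rw [mem_filter] at hx
      exact h5 x hx.1 hx.2
    · ext x
      rw [mem_union, mem_filter]
      constructor
      · rintro (h | h)
        · exact h2 h
        · exact h.1
      · intro h
        by_cases hI : x ∈ I
        · exact Or.inl hI
        · exact Or.inr ⟨h, hI⟩

theorem dp_full (r : J → J → Prop) (m : ℕ) (P : Finset J) : ∀ (t : ℕ) (K : Finset J),
    K ∈ Dp r m P t → K ⊆ P ∧ (∀ i ∈ P, ∀ j ∈ K, r i j → i ∈ K) ∧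
      ∃ S : J → ℕ, (∀ j ∈ K, S j < t) ∧ (∀ s < t, (K.filter fun j => S j = s).card = m) ∧
        ∀ i ∈ K, ∀ j ∈ K, r i j → S i < S j := by
  intro t
  induction t with
  | zero =>
    intro K hK
    have hK' : K = ∅ := by simpa [Dp] using hK
    subst hK'
    exact ⟨empty_subset _, fun _ _ j hj => absurd hj (notMem_empty _), fun _ => 0,
      fun j hj => absurd hj (notMem_empty _), fun s hs => by omega,
      fun i hi => absurd hi (notMem_empty _)⟩
  | succ t ih =>
    intro K hK
    obtain ⟨I, hI, h1, h2, h3, h4⟩ := (mem_dp_succ r m P t K).1 hK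
    obtain ⟨hI1, hI2, S, hS1, hS2, hS3⟩ := ih I hI
    have hKP : ∀ x ∈ K, x ∈ P := by
      intro x hx
      by_cases hxI : x ∈ I
      · exact hI1 hxI
      · exact h2 x hx hxI
    obtain ⟨S', e1, e2⟩ : ∃ S' : J → ℕ, (∀ x ∈ I, S' x = S x) ∧ ∀ x, x ∉ I → S' x = t :=
      ⟨fun x => if x ∈ I then S x else t, fun x hx => if_pos hx, fun x hx => if_neg hx⟩
    refine ⟨hKP, ?_, S', ?_, ?_, ?_⟩
    · intro i hi j hj hij
      by_cases hjI : j ∈ I
      · exact h1 (hI2 i hi j hjI hij)
      · exact h1 (h4 j hj hjI i hi hij)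
    · intro j hj
      by_cases h : j ∈ I
      · rw [e1 j h]
        have := hS1 j h
        omega
      · rw [e2 j h]
        omega
    · intro s hs
      by_cases hst : s < t
      · rw [← hS2 s hst]
        congr 1
        ext j
        rw [mem_filter, mem_filter]
        constructor
        · rintro ⟨h5, h6⟩
          by_cases h : j ∈ I
          · rw [e1 j h] at h6
            exact ⟨h, h6⟩
          · rw [e2 j h] at h6
            omega
        · rintro ⟨h5, h6⟩
          refine ⟨h1 h5, ?_⟩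
          rw [e1 j h5]
          exact h6
      · have hst' : s = t := by omega
        subst hst'
        rw [← h3]
        congr 1
        ext j
        rw [mem_filter, mem_filter]
        constructor
        · rintro ⟨h5, h6⟩
          refine ⟨h5, ?_⟩
          intro h
          rw [e1 j h] at h6
          have := hS1 j h
          omega
        · rintro ⟨h5, h6⟩
          exact ⟨h5, e2 j h6⟩
    · intro i hi j hj hij
      by_cases hjI : j ∈ I
      · have hiI : i ∈ I := hI2 i (hKP i hi) j hjI hij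
        rw [e1 j hjI, e1 i hiI]
        exact hS3 i hiI j hjI hij
      · have hiI : i ∈ I := h4 j hj hjI i (hKP i hi) hij
        rw [e2 j hjI, e1 i hiI]
        exact hS1 i hiI

theorem base_iff (r : J → J → Prop) (m : ℕ) (P : Finset J) (e : ℕ) :
    P ∈ Dp r m P e ↔ Full r m P e := by
  constructor
  · intro h
    obtain ⟨_, _, S, h1, h2, h3⟩ := dp_full r m P e P h
    exact ⟨S, h1, h2, h3⟩
  · rintro ⟨S, h1, h2, h3⟩
    have main : ∀ t ≤ e, (P.filter fun x => S x < t) ∈ Dp r m P t := by
      intro t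
      induction t with
      | zero =>
        intro _
        have : (P.filter fun x => S x < 0) = ∅ := by
          apply filter_eq_empty_iff.2
          intro x _ hx
          omega
        rw [this]
        simp [Dp]
      | succ t ih =>
        intro ht
        rw [mem_dp_succ]
        refine ⟨_, ih (by omega), ?_, ?_, ?_, ?_⟩
        · intro x hx
          rw [mem_filter] at hx ⊢
          exact ⟨hx.1, by omega⟩
        · intro x hx _
          exact (mem_filter.1 hx).1
        · rw [← h2 t (by omega)]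
          congr 1
          ext x
          simp only [mem_filter, not_and, not_lt]
          constructor
          · rintro ⟨⟨h5, h6⟩, h7⟩
            have := h7 h5
            exact ⟨h5, by omega⟩
          · rintro ⟨h5, h6⟩
            exact ⟨⟨h5, by omega⟩, fun _ => by omega⟩
        · intro x hx _ y hy hyx
          rw [mem_filter] at hx ⊢
          have := h3 y hy x hx.1 hyx
          exact ⟨hy, by omega⟩
    have h4 := main e le_rfl
    have h5 : (P.filter fun x => S x < e) = P := filter_true_of_mem h1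
    rw [h5] at h4
    exact h4

/-- The number of the sets in a stage, if `P` has no antichain of more than `w` jobs. -/
theorem card_dp [Fintype J] (r : J → J → Prop) (hr : IsStrictOrder J r) (m w : ℕ)
    (P : Finset J) (hw : ∀ A ⊆ P, (∀ x ∈ A, ∀ y ∈ A, ¬ r x y) → A.card ≤ w) (t : ℕ) :
    (Dp r m P t).card ≤ (Fintype.card J + 1) ^ w := by
  refine le_trans ?_ (card_sub (J := J) w)
  apply card_le_card_of_injOn (fun D => D.filter fun x => ∀ y ∈ D, ¬ r x y)
  · intro D hD
    obtain ⟨h1, _⟩ := dp_full r m P t D hD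
    have : (D.filter fun x => ∀ y ∈ D, ¬ r x y).card ≤ w := by
      apply hw
      · exact (filter_subset _ _).trans h1
      · intro x hx y hy
        rw [mem_filter] at hx hy
        exact hx.2 y hy.1
    have h2 : (D.filter fun x => ∀ y ∈ D, ¬ r x y) ∈
        (univ.filter fun X : Finset J => X.card ≤ w) := mem_filter.2 ⟨mem_univ _, this⟩
    exact h2
  · have hwf : WellFounded (fun a b : J => r b a) := by
      have : IsStrictOrder J (fun a b => r b a) :=
        { irrefl := fun a h => hr.irrefl a h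
          trans := fun _ _ _ h h' => hr.trans _ _ _ h' h }
      exact Finite.wellFounded_of_trans_of_irrefl _
    have top : ∀ D : Finset J, ∀ x ∈ D, ∃ y ∈ D.filter (fun x => ∀ y ∈ D, ¬ r x y),
        x = y ∨ r x y := by
      intro D x
      induction x using hwf.induction with
      | _ x ih =>
        intro hx
        by_cases h : ∀ y ∈ D, ¬ r x y
        · exact ⟨x, mem_filter.2 ⟨hx, h⟩, Or.inl rfl⟩
        · push Not at h
          obtain ⟨y, hy, hxy⟩ := h
          obtain ⟨z, hz, hyz⟩ := ih y hxy hy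
          refine ⟨z, hz, Or.inr ?_⟩
          rcases hyz with h | h
          · rw [← h]
            exact hxy
          · exact hr.trans _ _ _ hxy h
    have key : ∀ D ∈ Dp r m P t, ∀ x, (x ∈ D ↔ x ∈ P ∧
        ∃ y ∈ D.filter (fun x => ∀ y ∈ D, ¬ r x y), x = y ∨ r x y) := by
      intro D hD x
      obtain ⟨h1, h2, _⟩ := dp_full r m P t D hD
      constructor
      · intro hx
        exact ⟨h1 hx, top D x hx⟩
      · rintro ⟨hx, y, hy, hxy⟩
        rw [mem_filter] at hy
        rcases hxy with h | h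
        · rw [h]
          exact hy.1
        · exact h2 x hx y hy.1 h
    intro D hD E hE hDE
    have hDE' : D.filter (fun x => ∀ y ∈ D, ¬ r x y) = E.filter (fun x => ∀ y ∈ E, ¬ r x y) := hDE
    ext x
    rw [key D hD x, key E hE x, hDE']

/-! ### The procedure -/

theorem solve_iff (F : Finset J → ℕ → Prop) (m : ℕ) (hm : 1 ≤ m) (e : ℕ) : ∀ (k : ℕ)
    (r : J → J → Prop), (∀ a b c, r a b → r b c → r a c) → ∀ 𝓕 : Finset (Finset J),
      (∀ Q ∈ fam m k r 𝓕, ∀ s ≤ e, (F Q s ↔ Full r m Q s)) →
      ∀ P ∈ 𝓕, ∀ s ≤ e, (Solve F m k r P s ↔ Full r m P s) := by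
  intro k
  induction k with
  | zero => exact fun r _ 𝓕 h P hP s hs => h P hP s hs
  | succ k ih =>
    intro r htr 𝓕 h P hP s hs
    rw [← peel_iff r htr m P s]
    have h1 : ∀ Q ∈ pieces r m P, ∀ t ≤ s,
        (Solve F m k (fun a b => r b a) Q t ↔ Full r m Q t) := by
      intro Q hQ t ht
      rw [ih (fun a b => r b a) (fun a b c h h' => htr _ _ _ h' h) (𝓕.biUnion (pieces r m))
        (fun Q hQ s hs => (h Q hQ s hs).trans (full_rev r m Q s).symm) Q
        (mem_biUnion.2 ⟨P, hP, hQ⟩) t (ht.trans hs)]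
      exact full_rev r m Q t
    constructor
    · exact peel_congr _ _ r m hm P s (fun Q hQ t ht h => (h1 Q hQ t ht).1 h)
    · exact peel_congr _ _ r m hm P s (fun Q hQ t ht h => (h1 Q hQ t ht).2 h)

end Pool.Agent.Helper57.PL
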