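import Pool.Agent.Helper57.PL.Defs

/-! # Peeling: the main lemma -/

namespace Pool.Agent.Helper57.PL

open Finset
open scoped Classical

variable {J : Type}

theorem mem_low {r : J → J → Prop} {P : Finset J} {x : J} :
    x ∈ low r P ↔ x ∈ P ∧ ∃ y ∈ P, r x y := by
  unfold low
  rw [mem_filter]

theorem mem_piece {r : J → J → Prop} {P : Finset J} {c : Option (Finset J)} {X : Finset J}
    {y : J} : y ∈ piece r P c X ↔ y ∈ low r P ∧ After r c y ∧ ∀ x ∈ X, x ≠ y ∧ ¬ r x y := by
  unfold piece
  rw [mem_filter]

theorem after_none (r : J → J → Prop) (y : J) : After r none y := by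
  intro X h
  cases h

theorem after_some {r : J → J → Prop} {X : Finset J} {y : J} :
    After r (some X) y ↔ ∃ x ∈ X, r x y := by
  constructor
  · intro h
    exact h X rfl
  · intro h Y hY
    cases hY
    exact h

theorem after_up {r : J → J → Prop} (htr : ∀ a b c, r a b → r b c → r a c)
    {c : Option (Finset J)} {y z : J} (h : After r c y) (hyz : r y z) : After r c z := by
  intro X hX
  obtain ⟨x, hx, hxy⟩ := h X hX
  exact ⟨x, hx, htr _ _ _ hxy hyz⟩

/-- Hall's theorem for unit jobs with sets of allowed times. -/
theorem hall_time {ι : Type} [Fintype ι] (f : ℕ → ℕ) (ok : ι → ℕ → Prop) (lo hi : ℕ)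
    (H : ∀ X : Finset ι, ∃ P : Finset ℕ, P ⊆ Ico lo hi ∧ (∀ s ∈ P, ∃ i ∈ X, ok i s) ∧
      X.card ≤ ∑ s ∈ P, f s) :
    ∃ g : ι → ℕ × ℕ, Function.Injective g ∧
      ∀ i, (g i).1 ∈ Ico lo hi ∧ ok i (g i).1 ∧ (g i).2 < f (g i).1 := by
  have hh := (Finset.all_card_le_biUnion_card_iff_exists_injective
    (fun i : ι => ((Ico lo hi).filter fun s => ok i s).biUnion
      fun s => (range (f s)).image fun c => (s, c))).1 (by
    intro X
    obtain ⟨P, hP1, hP2, hP3⟩ := H X
    have hc : (P.biUnion fun s => (range (f s)).image fun c => (s, c)).card = ∑ s ∈ P, f s := by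
      rw [card_biUnion]
      · apply sum_congr rfl
        intro s _
        rw [card_image_of_injective, card_range]
        intro a b hab
        exact (Prod.mk.injEq _ _ _ _ ▸ hab).2
      · intro a _ b _ hab
        rw [Function.onFun, disjoint_left]
        intro p hp hq
        simp only [mem_image, mem_range] at hp hq
        obtain ⟨c, _, hc⟩ := hp
        obtain ⟨d, _, hd⟩ := hq
        apply hab
        rw [← hc] at hd
        exact (Prod.mk.injEq _ _ _ _ ▸ hd).1.symm
    calc X.card ≤ ∑ s ∈ P, f s := hP3
      _ = (P.biUnion fun s => (range (f s)).image fun c => (s, c)).card := hc.symm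
      _ ≤ _ := by
        apply card_le_card
        intro p hp
        simp only [mem_biUnion, mem_image, mem_range, mem_filter] at hp ⊢
        obtain ⟨s, hs, c, hc, rfl⟩ := hp
        obtain ⟨i, hi, hok⟩ := hP2 s hs
        exact ⟨i, hi, s, ⟨hP1 hs, hok⟩, c, hc, rfl⟩)
  obtain ⟨g, hg1, hg2⟩ := hh
  refine ⟨g, hg1, fun i => ?_⟩
  have h := hg2 i
  simp only [mem_biUnion, mem_image, mem_range, mem_filter] at h
  obtain ⟨s, ⟨hs1, hs2⟩, c, hc, he⟩ := h
  rw [← he]
  exact ⟨hs1, hs2, hc⟩

/-- Exchange: a full schedule in which a job with a successor in `P` that starts after a slot not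
filled by such jobs has a predecessor in or after this slot. -/
theorem exchange (r : J → J → Prop) (m : ℕ) (P : Finset J) (e : ℕ) :
    ∀ (N : ℕ) (S : J → ℕ), (∀ j ∈ P, S j < e) → (∀ t < e, (P.filter fun j => S j = t).card = m) →
    (∀ i ∈ P, ∀ j ∈ P, r i j → S i < S j) → ∑ a ∈ low r P, S a = N →
    ∃ S' : J → ℕ, (∀ j ∈ P, S' j < e) ∧ (∀ t < e, (P.filter fun j => S' j = t).card = m) ∧
      (∀ i ∈ P, ∀ j ∈ P, r i j → S' i < S' j) ∧
      ∀ t < e, ((low r P).filter fun j => S' j = t).card < m → ∀ g ∈ low r P, t < S' g →
        ∃ p ∈ P, r p g ∧ t ≤ S' p := by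
  intro N
  induction N using Nat.strong_induction_on with
  | _ N ih =>
    intro S h1 h2 h3 hN
    by_cases hgood : ∀ t < e, ((low r P).filter fun j => S j = t).card < m → ∀ g ∈ low r P,
        t < S g → ∃ p ∈ P, r p g ∧ t ≤ S p
    · exact ⟨S, h1, h2, h3, hgood⟩
    · push Not at hgood
      obtain ⟨t, hte, hcard, g, hg, htg, hpred⟩ := hgood
      have hg' := mem_low.1 hg
      -- a job b without successors at time t
      obtain ⟨b, hbP, hbt, hbl⟩ : ∃ b ∈ P, S b = t ∧ b ∉ low r P := by
        by_contra hc
        push Not at hc
        have hsub : (P.filter fun j => S j = t) ⊆ (low r P).filter fun j => S j = t := by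
          intro x hx
          rw [mem_filter] at hx ⊢
          exact ⟨hc x hx.1 hx.2, hx.2⟩
        have := card_le_card hsub
        rw [h2 t hte] at this
        omega
      have hbmax : ∀ y ∈ P, ¬ r b y := by
        intro y hy hby
        exact hbl (mem_low.2 ⟨hbP, y, hy, hby⟩)
      have hgb : g ≠ b := by
        intro h
        rw [h] at htg
        omega
      have hSg : S (Equiv.swap g b g) = S b := by rw [Equiv.swap_apply_left]
      have hSb : S (Equiv.swap g b b) = S g := by rw [Equiv.swap_apply_right]
      have hSx : ∀ x, x ≠ g → x ≠ b → S (Equiv.swap g b x) = S x := by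
        intro x hxa hxb
        rw [Equiv.swap_apply_of_ne_of_ne hxa hxb]
      have hmem : ∀ x ∈ P, Equiv.swap g b x ∈ P := by
        intro x hx
        by_cases hxg : x = g
        · rw [hxg, Equiv.swap_apply_left]
          exact hbP
        · by_cases hxb : x = b
          · rw [hxb, Equiv.swap_apply_right]
            exact hg'.1
          · rw [Equiv.swap_apply_of_ne_of_ne hxg hxb]
            exact hx
      refine ih (∑ x ∈ low r P, S (Equiv.swap g b x)) ?_ (fun x => S (Equiv.swap g b x)) ?_ ?_ ?_
        rfl
      · rw [← hN]
        apply sum_lt_sum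
        · intro x hx
          by_cases hxa : x = g
          · rw [hxa, hSg]
            omega
          · have hxb : x ≠ b := by
              intro h
              rw [h] at hx
              exact hbl hx
            rw [hSx x hxa hxb]
        · exact ⟨g, hg, by rw [hSg]; omega⟩
      · intro j hj
        exact h1 _ (hmem j hj)
      · intro s hs
        have : (P.filter fun j => S (Equiv.swap g b j) = s).card =
            (P.filter fun j => S j = s).card := by
          apply card_bij (fun x _ => Equiv.swap g b x)
          · intro x hx
            rw [mem_filter] at hx ⊢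
            exact ⟨hmem x hx.1, hx.2⟩
          · intro x _ y _ hxy
            exact (Equiv.swap g b).injective hxy
          · intro y hy
            rw [mem_filter] at hy
            refine ⟨Equiv.swap g b y, ?_, Equiv.swap_apply_self g b y⟩
            rw [mem_filter]
            refine ⟨hmem y hy.1, ?_⟩
            rw [Equiv.swap_apply_self]
            exact hy.2
        rw [this]
        exact h2 s hs
      · intro i hi j hj hij
        show S (Equiv.swap g b i) < S (Equiv.swap g b j)
        have hib : i ≠ b := by
          intro h
          rw [h] at hij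
          exact hbmax j hj hij
        have h4 := h3 i hi j hj hij
        by_cases hjg : j = g
        · have h5 : S i < t := by
            have := hpred i hi (by rw [← hjg]; exact hij)
            exact this
          have hig : i ≠ g := by
            intro h
            rw [h] at h5
            omega
          rw [hSx i hig hib, hjg, hSg, hbt]
          exact h5
        · by_cases hig : i = g
          · by_cases hjb : j = b
            · rw [hig, hjb] at h4
              omega
            · rw [hSx j hjg hjb, hig, hSg]
              rw [hig] at h4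
              omega
          · rw [hSx i hig hib]
            by_cases hjb : j = b
            · rw [hjb, hSb]
              rw [hjb] at h4
              omega
            · rw [hSx j hjg hjb]
              exact h4

end Pool.Agent.Helper57.PL
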