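import Pool.Agent.Helper57.PL.Peel

/-! # Peeling: a full schedule gives checkpoints -/

namespace Pool.Agent.Helper57.PL

open Finset
open scoped Classical

variable {J : Type}

theorem card_from (m : ℕ) (P : Finset J) (e : ℕ) (S : J → ℕ) (h1 : ∀ j ∈ P, S j < e)
    (h2 : ∀ t < e, (P.filter fun j => S j = t).card = m) (u : ℕ) (hu : u ≤ e) :
    (P.filter fun j => u ≤ S j).card = m * (e - u) := by
  have h3 : (P.filter fun j => u ≤ S j).card =
      ∑ t ∈ Ico u e, ((P.filter fun j => u ≤ S j).filter fun j => S j = t).card := by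
    apply card_eq_sum_card_fiberwise
    intro x hx
    have hx' : x ∈ P.filter fun j => u ≤ S j := hx
    rw [mem_filter] at hx'
    have : S x ∈ Ico u e := mem_Ico.2 ⟨hx'.2, h1 x hx'.1⟩
    exact this
  rw [h3]
  have h4 : ∀ t ∈ Ico u e, ((P.filter fun j => u ≤ S j).filter fun j => S j = t).card = m := by
    intro t ht
    rw [mem_Ico] at ht
    rw [← h2 t ht.2]
    congr 1
    ext x
    simp only [mem_filter]
    constructor
    · rintro ⟨⟨h5, _⟩, h6⟩
      exact ⟨h5, h6⟩
    · rintro ⟨h5, h6⟩
      exact ⟨⟨h5, by omega⟩, h6⟩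
  rw [sum_congr rfl h4, sum_const, Nat.card_Ico, smul_eq_mul, mul_comm]

theorem full_card (r : J → J → Prop) (m : ℕ) (P : Finset J) (e : ℕ) (h : Full r m P e) :
    P.card = m * e := by
  obtain ⟨S, h1, h2, _⟩ := h
  have := card_from m P e S h1 h2 0 (Nat.zero_le _)
  rw [Nat.sub_zero] at this
  rw [← this]
  congr 1
  exact (filter_true_of_mem fun x _ => Nat.zero_le _).symm

theorem full_piece (r : J → J → Prop) (m : ℕ) (P : Finset J) (S : J → ℕ)
    (hS : ∀ i ∈ P, ∀ j ∈ P, r i j → S i < S j) (t0 t : ℕ) (c : Option (Finset J))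
    (X : Finset J) (hc : ∀ y ∈ low r P, (After r c y ↔ t0 ≤ S y))
    (hX : ∀ y ∈ low r P, ((∀ x ∈ X, x ≠ y ∧ ¬ r x y) ↔ S y < t))
    (hf : ∀ s, t0 ≤ s → s < t → ((low r P).filter fun j => S j = s).card = m) :
    Full r m (piece r P c X) (t - t0) := by
  have hm : ∀ y, y ∈ piece r P c X ↔ y ∈ low r P ∧ t0 ≤ S y ∧ S y < t := by
    intro y
    rw [mem_piece]
    constructor
    · rintro ⟨h1, h2, h3⟩
      exact ⟨h1, (hc y h1).1 h2, (hX y h1).1 h3⟩
    · rintro ⟨h1, h2, h3⟩
      exact ⟨h1, (hc y h1).2 h2, (hX y h1).2 h3⟩
  refine ⟨fun y => S y - t0, ?_, ?_, ?_⟩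
  · intro y hy
    obtain ⟨_, h2, h3⟩ := (hm y).1 hy
    show S y - t0 < t - t0
    omega
  · intro s hs
    rw [← hf (s + t0) (by omega) (by omega)]
    congr 1
    ext y
    rw [mem_filter, mem_filter, hm y]
    constructor
    · rintro ⟨⟨h1, h2, h3⟩, h4⟩
      have h4' : S y - t0 = s := h4
      exact ⟨h1, by omega⟩
    · rintro ⟨h1, h2⟩
      refine ⟨⟨h1, by omega, by omega⟩, ?_⟩
      show S y - t0 = s
      omega
  · intro i hi j hj hij
    obtain ⟨h1, h2, h3⟩ := (hm i).1 hi
    obtain ⟨h4, h5, h6⟩ := (hm j).1 hj
    have := hS i (mem_low.1 h1).1 j (mem_low.1 h4).1 hij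
    show S i - t0 < S j - t0
    omega

theorem peel_of_full (r : J → J → Prop) (htr : ∀ a b c, r a b → r b c → r a c)
    (m : ℕ) (P : Finset J) (e : ℕ) (h : Full r m P e) : Peel (Full r m) r m P e := by
  refine ⟨full_card r m P e h, ?_⟩
  obtain ⟨S0, h01, h02, h03⟩ := h
  obtain ⟨S, h1, h2, h3, h4⟩ := exchange r m P e _ S0 h01 h02 h03 rfl
  have hle : ∀ t < e, ((low r P).filter fun j => S j = t).card ≤ m := by
    intro t ht
    rw [← h2 t ht]
    apply card_le_card
    intro x hx
    rw [mem_filter] at hx ⊢
    exact ⟨(mem_low.1 hx.1).1, hx.2⟩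
  -- the jobs after a slot which is not full
  have key : ∀ t < e, ((low r P).filter fun j => S j = t).card < m → ∀ (n : ℕ), ∀ y ∈ low r P,
      S y = n → t ≤ S y → ∃ x ∈ (low r P).filter (fun j => S j = t), x = y ∨ r x y := by
    intro t ht hcard n
    induction n using Nat.strong_induction_on with
    | _ n ih =>
      intro y hy hn hty
      by_cases hyt : S y = t
      · exact ⟨y, mem_filter.2 ⟨hy, hyt⟩, Or.inl rfl⟩
      · obtain ⟨p, hp, hpy, htp⟩ := h4 t ht hcard y hy (by omega)
        have hy' := (mem_low.1 hy).1
        have h5 := h3 p hp y hy' hpy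
        have hpl : p ∈ low r P := mem_low.2 ⟨hp, y, hy', hpy⟩
        obtain ⟨x, hx, hxp⟩ := ih (S p) (by omega) p hpl rfl htp
        refine ⟨x, hx, Or.inr ?_⟩
        rcases hxp with h6 | h6
        · rw [h6]
          exact hpy
        · exact htr _ _ _ h6 hpy
  have main : ∀ t ≤ e, ∃ t0 c, t0 ≤ t ∧ Reach (Full r m) r m P e t0 c ∧
      (∀ y ∈ low r P, (After r c y ↔ t0 ≤ S y)) ∧
      ∀ s, t0 ≤ s → s < t → ((low r P).filter fun j => S j = s).card = m := by
    intro t
    induction t with
    | zero =>
      intro _
      refine ⟨0, none, le_rfl, Reach.start, ?_, fun s _ hs => by omega⟩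
      intro y _
      exact ⟨fun _ => Nat.zero_le _, fun _ => after_none r y⟩
    | succ t ih =>
      intro hte
      obtain ⟨t0, c, h5, h6, h7, h8⟩ := ih (by omega)
      by_cases hfull : ((low r P).filter fun j => S j = t).card = m
      · refine ⟨t0, c, by omega, h6, h7, ?_⟩
        intro s hs1 hs2
        by_cases hst : s = t
        · rw [hst]
          exact hfull
        · exact h8 s hs1 (by omega)
      · have hlt : ((low r P).filter fun j => S j = t).card < m :=
          lt_of_le_of_ne (hle t (by omega)) hfull
        have hXm : ∀ x ∈ (low r P).filter (fun j => S j = t), x ∈ P ∧ S x = t := by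
          intro x hx
          rw [mem_filter] at hx
          exact ⟨(mem_low.1 hx.1).1, hx.2⟩
        refine ⟨t + 1, some ((low r P).filter fun j => S j = t), le_rfl, ?_, ?_, ?_⟩
        · refine Reach.step t0 t c _ h6 h5 (by omega) ?_ hlt ?_ ?_ ?_
          · intro x hx
            rw [mem_filter] at hx
            exact ⟨hx.1, (h7 x hx.1).2 (by omega)⟩
          · intro x hx y hy hxy
            have h9 := hXm x hx
            have h10 := hXm y hy
            have := h3 x h9.1 y h10.1 hxy
            omega
          · apply full_piece r m P S h3 t0 t c _ h7 ?_ h8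
            intro y hy
            constructor
            · intro hall
              by_contra hc
              push Not at hc
              obtain ⟨x, hx, hxy⟩ := key t (by omega) hlt _ y hy rfl hc
              rcases hxy with h9 | h9
              · exact (hall x hx).1 h9
              · exact (hall x hx).2 h9
            · intro hlt' x hx
              have h9 := hXm x hx
              constructor
              · intro h10
                rw [h10] at h9
                omega
              · intro h10
                have := h3 x h9.1 y (mem_low.1 hy).1 h10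
                omega
          · rw [← card_from m P e S h1 h2 (t + 1) hte]
            apply card_le_card
            intro y hy
            rw [mem_filter] at hy ⊢
            obtain ⟨hyP, x, hx, hxy⟩ := hy
            have h9 := hXm x hx
            have := h3 x h9.1 y hyP hxy
            exact ⟨hyP, by omega⟩
        · intro y hy
          rw [after_some]
          constructor
          · rintro ⟨x, hx, hxy⟩
            have h9 := hXm x hx
            have := h3 x h9.1 y (mem_low.1 hy).1 hxy
            omega
          · intro hty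
            obtain ⟨x, hx, hxy⟩ := key t (by omega) hlt _ y hy rfl (by omega)
            rcases hxy with h9 | h9
            · have h10 := hXm x hx
              rw [h9] at h10
              omega
            · exact ⟨x, hx, h9⟩
        · intro s hs1 hs2
          omega
  obtain ⟨t0, c, h5, h6, h7, h8⟩ := main e le_rfl
  refine ⟨t0, c, h6, h5, ?_⟩
  apply full_piece r m P S h3 t0 e c ∅ h7 ?_ h8
  intro y hy
  constructor
  · intro _
    exact h1 y (mem_low.1 hy).1
  · intro _ x hx
    exact absurd hx (notMem_empty _)

end Pool.Agent.Helper57.PL
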