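import Pool.Agent.Helper57.PL.Peel2

/-! # Peeling: checkpoints give a full schedule -/

namespace Pool.Agent.Helper57.PL

open Finset
open scoped Classical

variable {J : Type}

/-- `S` is a good schedule, before time `t`, of the jobs of `low r P` not after `c`. -/
def Inv (r : J → J → Prop) (m : ℕ) (P : Finset J) (e t : ℕ) (c : Option (Finset J))
    (S : J → ℕ) : Prop :=
  (∀ y ∈ low r P, ¬ After r c y → S y < t) ∧
  (∀ s < t, ((low r P).filter fun y => ¬ After r c y ∧ S y = s).card ≤ m) ∧
  (∀ i ∈ low r P, ∀ j ∈ low r P, ¬ After r c i → ¬ After r c j → r i j → S i < S j) ∧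
  (∀ s < t, ((low r P).filter fun y => ¬ After r c y ∧ S y = s).card < m →
    (P.filter fun y => (∃ p ∈ low r P, (After r c p ∨ s ≤ S p) ∧ r p y) ∨
      (y ∈ low r P ∧ (After r c y ∨ s < S y))).card ≤ m * (e - (s + 1)))

theorem inv_start (r : J → J → Prop) (m : ℕ) (P : Finset J) (e : ℕ) :
    Inv r m P e 0 none (fun _ => 0) := by
  refine ⟨fun y _ h => absurd (after_none r y) h, fun s hs => by omega, ?_, fun s hs => by omega⟩
  intro i _ j _ h
  exact absurd (after_none r i) h

theorem inv_step (r : J → J → Prop) (htr : ∀ a b c, r a b → r b c → r a c)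
    (m : ℕ) (P : Finset J) (e t t' : ℕ) (c : Option (Finset J)) (X : Finset J) (S : J → ℕ)
    (hI : Inv r m P e t c S) (h1 : t ≤ t')
    (h3 : ∀ x ∈ X, x ∈ low r P ∧ After r c x) (h4 : X.card ≤ m)
    (h5 : ∀ x ∈ X, ∀ y ∈ X, ¬ r x y) (h6 : Full r m (piece r P c X) (t' - t))
    (h7 : (P.filter fun y => ∃ x ∈ X, r x y).card ≤ m * (e - (t' + 1))) :
    ∃ S' : J → ℕ, Inv r m P e (t' + 1) (some X) S' ∧
      ∀ y ∈ low r P, ¬ After r (some X) y → y ∉ X → S' y < t' := by
  obtain ⟨hI1, hI2, hI3, hI4⟩ := hI
  obtain ⟨R, hR1, hR2, hR3⟩ := h6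
  -- the three kinds of jobs
  have hkind : ∀ y ∈ low r P, (¬ After r (some X) y ↔
      (¬ After r c y ∨ (After r c y ∧ y ∈ piece r P c X) ∨ (After r c y ∧ y ∈ X))) := by
    intro y hy
    rw [after_some]
    constructor
    · intro h
      by_cases hc : After r c y
      · right
        by_cases hX : y ∈ X
        · exact Or.inr ⟨hc, hX⟩
        · left
          refine ⟨hc, mem_piece.2 ⟨hy, hc, ?_⟩⟩
          intro x hx
          refine ⟨fun h' => hX (h' ▸ hx), fun h' => h ⟨x, hx, h'⟩⟩
      · exact Or.inl hc
    · rintro (h | h | h) ⟨x, hx, hxy⟩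
      · exact h (after_up htr (h3 x hx).2 hxy)
      · exact ((mem_piece.1 h.2).2.2 x hx).2 hxy
      · exact h5 x hx y h.2 hxy
  let S' : J → ℕ := fun y => if After r c y then (if y ∈ X then t' else t + R y) else S y
  have hS1 : ∀ y, ¬ After r c y → S' y = S y := fun y h => if_neg h
  have hS2 : ∀ y, After r c y → y ∈ X → S' y = t' := by
    intro y h h'
    show (if After r c y then (if y ∈ X then t' else t + R y) else S y) = t'
    rw [if_pos h, if_pos h']
  have hS3 : ∀ y ∈ piece r P c X, S' y = t + R y := by
    intro y h
    obtain ⟨_, h9, h10⟩ := mem_piece.1 h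
    have h11 : y ∉ X := fun h' => (h10 y h').1 rfl
    show (if After r c y then (if y ∈ X then t' else t + R y) else S y) = _
    rw [if_pos h9, if_neg h11]
  have hcount : ∀ s, t ≤ s → s < t' → ((piece r P c X).filter fun y => S' y = s).card = m := by
    intro s hs1 hs2
    rw [← hR2 (s - t) (by omega)]
    congr 1
    ext y
    rw [mem_filter, mem_filter]
    constructor
    · rintro ⟨h, h'⟩
      rw [hS3 y h] at h'
      exact ⟨h, by omega⟩
    · rintro ⟨h, h'⟩
      refine ⟨h, ?_⟩
      rw [hS3 y h]
      omega
  have hpt : ∀ y ∈ piece r P c X, t ≤ S' y ∧ S' y < t' := by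
    intro y hy
    rw [hS3 y hy]
    have := hR1 y hy
    omega
  have hlast : ∀ y ∈ low r P, ¬ After r (some X) y → y ∉ X → S' y < t' := by
    intro y hy h hX
    rcases (hkind y hy).1 h with h9 | h9 | h9
    · rw [hS1 y h9]
      have := hI1 y hy h9
      omega
    · exact (hpt y h9.2).2
    · exact absurd h9.2 hX
  refine ⟨S', ⟨?_, ?_, ?_, ?_⟩, hlast⟩
  · intro y hy h
    by_cases hX : y ∈ X
    · rw [hS2 y (h3 y hX).2 hX]
      omega
    · have := hlast y hy h hX
      omega
  · intro s hs
    by_cases h8 : s < t
    · refine le_trans (card_le_card ?_) (hI2 s h8)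
      intro y hy
      rw [mem_filter] at hy ⊢
      obtain ⟨hy1, hy2, hy3⟩ := hy
      refine ⟨hy1, ?_⟩
      rcases (hkind y hy1).1 hy2 with h9 | h9 | h9
      · rw [hS1 y h9] at hy3
        exact ⟨h9, hy3⟩
      · have := hpt y h9.2
        omega
      · rw [hS2 y h9.1 h9.2] at hy3
        omega
    · by_cases h9 : s < t'
      · rw [← hcount s (by omega) h9]
        apply card_le_card
        intro y hy
        rw [mem_filter] at hy ⊢
        obtain ⟨hy1, hy2, hy3⟩ := hy
        rcases (hkind y hy1).1 hy2 with h10 | h10 | h10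
        · rw [hS1 y h10] at hy3
          have := hI1 y hy1 h10
          omega
        · exact ⟨h10.2, hy3⟩
        · rw [hS2 y h10.1 h10.2] at hy3
          omega
      · refine le_trans (card_le_card ?_) h4
        intro y hy
        rw [mem_filter] at hy
        obtain ⟨hy1, hy2, hy3⟩ := hy
        by_contra hX
        have := hlast y hy1 hy2 hX
        omega
  · intro i hi j hj hci hcj hij
    rcases (hkind i hi).1 hci with h9 | h9 | h9
    · rw [hS1 i h9]
      have h12 := hI1 i hi h9
      rcases (hkind j hj).1 hcj with h10 | h10 | h10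
      · rw [hS1 j h10]
        exact hI3 i hi j hj h9 h10 hij
      · have := hpt j h10.2
        omega
      · rw [hS2 j h10.1 h10.2]
        omega
    · have h13 := after_up htr h9.1 hij
      rcases (hkind j hj).1 hcj with h10 | h10 | h10
      · exact absurd h13 h10
      · rw [hS3 i h9.2, hS3 j h10.2]
        have := hR3 i h9.2 j h10.2 hij
        omega
      · rw [hS2 j h10.1 h10.2]
        exact (hpt i h9.2).2
    · exact absurd (after_some.2 ⟨i, h9.2, hij⟩) hcj
  · intro s hs hcard
    by_cases h8 : s < t
    · have hold : ((low r P).filter fun y => ¬ After r c y ∧ S y = s).card < m := by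
        refine lt_of_le_of_lt (card_le_card ?_) hcard
        intro y hy
        rw [mem_filter] at hy ⊢
        obtain ⟨hy1, hy2, hy3⟩ := hy
        refine ⟨hy1, (hkind y hy1).2 (Or.inl hy2), ?_⟩
        rw [hS1 y hy2]
        exact hy3
      refine le_trans (card_le_card ?_) (hI4 s h8 hold)
      intro y hy
      rw [mem_filter] at hy ⊢
      refine ⟨hy.1, ?_⟩
      rcases hy.2 with ⟨p, hp, hp2, hp3⟩ | ⟨hy2, hy3⟩
      · left
        refine ⟨p, hp, ?_, hp3⟩
        by_cases hcp : After r c p
        · exact Or.inl hcp
        · right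
          rcases hp2 with hp2 | hp2
          · exact absurd hp2 ((hkind p hp).2 (Or.inl hcp))
          · rw [hS1 p hcp] at hp2
            exact hp2
      · right
        refine ⟨hy2, ?_⟩
        by_cases hcy : After r c y
        · exact Or.inl hcy
        · right
          rcases hy3 with hy3 | hy3
          · exact absurd hy3 ((hkind y hy2).2 (Or.inl hcy))
          · rw [hS1 y hcy] at hy3
            exact hy3
    · by_cases h9 : s < t'
      · exfalso
        have h10 := hcount s (by omega) h9
        have h11 : ((piece r P c X).filter fun y => S' y = s) ⊆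
            ((low r P).filter fun y => ¬ After r (some X) y ∧ S' y = s) := by
          intro y hy
          rw [mem_filter] at hy ⊢
          obtain ⟨hy1, hy2⟩ := hy
          obtain ⟨hy3, hy4, _⟩ := mem_piece.1 hy1
          exact ⟨hy3, (hkind y hy3).2 (Or.inr (Or.inl ⟨hy4, hy1⟩)), hy2⟩
        have := card_le_card h11
        omega
      · have hst : s = t' := by omega
        rw [hst]
        refine le_trans (card_le_card ?_) h7
        intro y hy
        rw [mem_filter] at hy ⊢
        refine ⟨hy.1, ?_⟩
        rcases hy.2 with ⟨p, hp, hp2, hp3⟩ | ⟨hy2, hy3⟩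
        · by_cases hcp : After r (some X) p
          · obtain ⟨x, hx, hxp⟩ := after_some.1 hcp
            exact ⟨x, hx, htr _ _ _ hxp hp3⟩
          · rcases hp2 with hp2 | hp2
            · exact absurd hp2 hcp
            · have hpX : p ∈ X := by
                by_contra hX
                have := hlast p hp hcp hX
                omega
              exact ⟨p, hpX, hp3⟩
        · by_cases hcy : After r (some X) y
          · exact after_some.1 hcy
          · exfalso
            rcases hy3 with hy3 | hy3
            · exact hcy hy3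
            · by_cases hX : y ∈ X
              · rw [hS2 y (h3 y hX).2 hX] at hy3
                omega
              · have := hlast y hy2 hcy hX
                omega

theorem inv_reach (r : J → J → Prop) (htr : ∀ a b c, r a b → r b c → r a c)
    (m : ℕ) (P : Finset J) (e t : ℕ) (c : Option (Finset J))
    (h : Reach (Full r m) r m P e t c) : ∃ S, Inv r m P e t c S := by
  induction h with
  | start => exact ⟨_, inv_start r m P e⟩
  | step t t' c X h h1 h2 h3 h4 h5 h6 h7 ih =>
    obtain ⟨S, hS⟩ := ih
    obtain ⟨S', hS', _⟩ := inv_step r htr m P e t t' c X S hS h1 h3 h4.le h5 h6 h7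
    exact ⟨S', hS'⟩

theorem full_of_peel (r : J → J → Prop) (htr : ∀ a b c, r a b → r b c → r a c)
    (m : ℕ) (P : Finset J) (e : ℕ) (h : Peel (Full r m) r m P e) : Full r m P e := by
  obtain ⟨hcard, t, c, hreach, hte, hlast⟩ := h
  obtain ⟨S0, hS0⟩ := inv_reach r htr m P e t c hreach
  obtain ⟨S, hS, hSe⟩ := inv_step r htr m P e t e c ∅ S0 hS0 hte
    (fun x hx => absurd hx (notMem_empty _)) (by simp) (fun x hx => absurd hx (notMem_empty _))
    hlast (by
      have : (P.filter fun y => ∃ x ∈ (∅ : Finset J), r x y) = ∅ := by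
        apply filter_eq_empty_iff.2
        rintro y _ ⟨x, hx, _⟩
        exact absurd hx (notMem_empty _)
      rw [this]
      exact Nat.zero_le _)
  have hna : ∀ y, ¬ After r (some (∅ : Finset J)) y := by
    intro y h
    obtain ⟨x, hx, _⟩ := after_some.1 h
    exact absurd hx (notMem_empty _)
  have g1 : ∀ y ∈ low r P, S y < e := fun y hy => hSe y hy (hna y) (notMem_empty _)
  have efilt : ∀ s, ((low r P).filter fun y => ¬ After r (some (∅ : Finset J)) y ∧ S y = s) =
      ((low r P).filter fun y => S y = s) := by
    intro s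
    ext y
    rw [mem_filter, mem_filter]
    constructor
    · rintro ⟨h1, _, h2⟩
      exact ⟨h1, h2⟩
    · rintro ⟨h1, h2⟩
      exact ⟨h1, hna y, h2⟩
  have g2 : ∀ s < e, ((low r P).filter fun y => S y = s).card ≤ m := by
    intro s hs
    rw [← efilt s]
    exact hS.2.1 s (by omega)
  have g3 : ∀ i ∈ low r P, ∀ j ∈ low r P, r i j → S i < S j := by
    intro i hi j hj hij
    exact hS.2.2.1 i hi j hj (hna i) (hna j) hij
  have g4 : ∀ s < e, ((low r P).filter fun y => S y = s).card < m →
      (P.filter fun y => (∃ p ∈ low r P, s ≤ S p ∧ r p y) ∨ (y ∈ low r P ∧ s < S y)).card ≤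
        m * (e - (s + 1)) := by
    intro s hs hc
    rw [← efilt s] at hc
    refine le_trans (card_le_card ?_) (hS.2.2.2 s (by omega) hc)
    intro y hy
    rw [mem_filter] at hy ⊢
    refine ⟨hy.1, ?_⟩
    rcases hy.2 with ⟨p, hp, hp2, hp3⟩ | ⟨hy2, hy3⟩
    · exact Or.inl ⟨p, hp, Or.inr hp2, hp3⟩
    · exact Or.inr ⟨hy2, Or.inr hy3⟩
  -- the sum of the free places
  have hsum : ∀ u ≤ e, ∑ s ∈ Ico u e, (m - ((low r P).filter fun y => S y = s).card) +
      ((low r P).filter fun y => u ≤ S y).card = m * (e - u) := by
    intro u hu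
    have h3 : ((low r P).filter fun j => u ≤ S j).card =
        ∑ t ∈ Ico u e, ((low r P).filter fun j => S j = t).card := by
      have h4 : ((low r P).filter fun j => u ≤ S j).card =
          ∑ t ∈ Ico u e, (((low r P).filter fun j => u ≤ S j).filter fun j => S j = t).card := by
        apply card_eq_sum_card_fiberwise
        intro x hx
        have hx' : x ∈ (low r P).filter fun j => u ≤ S j := hx
        rw [mem_filter] at hx'
        have : S x ∈ Ico u e := mem_Ico.2 ⟨hx'.2, g1 x hx'.1⟩
        exact this
      rw [h4]
      apply sum_congr rfl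
      intro t ht
      rw [mem_Ico] at ht
      congr 1
      ext x
      simp only [mem_filter]
      constructor
      · rintro ⟨⟨h5, _⟩, h6⟩
        exact ⟨h5, h6⟩
      · rintro ⟨h5, h6⟩
        exact ⟨⟨h5, by omega⟩, h6⟩
    rw [h3, ← sum_add_distrib]
    have h5 : ∀ s ∈ Ico u e, (m - ((low r P).filter fun y => S y = s).card +
        ((low r P).filter fun y => S y = s).card) = m := by
      intro s hs
      rw [mem_Ico] at hs
      have := g2 s hs.2
      omega
    rw [sum_congr rfl h5, sum_const, Nat.card_Ico, smul_eq_mul, mul_comm]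
  have hlowsub : low r P ⊆ P := fun x hx => (mem_low.1 hx).1
  have hB : (P.filter fun b => b ∉ low r P).card + (low r P).card = m * e := by
    rw [← hcard]
    have h1 := card_filter_add_card_filter_not (s := P) (fun b => b ∈ low r P)
    have h2 : P.filter (fun b => b ∈ low r P) = low r P := by
      ext x
      rw [mem_filter]
      exact ⟨fun h => h.2, fun h => ⟨hlowsub h, h⟩⟩
    rw [h2] at h1
    omega
  -- the other jobs
  obtain ⟨g, hg1, hg2⟩ := hall_time (ι := {b : J // b ∈ P.filter fun b => b ∉ low r P})
    (fun s => m - ((low r P).filter fun y => S y = s).card)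
    (fun b s => ∀ p ∈ low r P, r p b.1 → S p < s) 0 e (by
    intro X
    have hex : ∃ u, u = e ∨ ∃ b ∈ X, ∀ p ∈ low r P, r p b.1 → S p < u := ⟨e, Or.inl rfl⟩
    have h1 := Nat.find_spec hex
    have h2 : Nat.find hex ≤ e := Nat.find_min' hex (Or.inl rfl)
    have h3 : ∀ s < Nat.find hex, ∀ b ∈ X, ∃ p ∈ low r P, r p b.1 ∧ s ≤ S p := by
      intro s hs b hb
      have h4 := Nat.find_min hex hs
      push Not at h4
      exact h4.2 b hb
    generalize Nat.find hex = u at h1 h2 h3
    refine ⟨Ico u e, Ico_subset_Ico (Nat.zero_le _) le_rfl, ?_, ?_⟩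
    · intro s hs
      rw [mem_Ico] at hs
      rcases h1 with h1 | ⟨b, hb, h1⟩
      · omega
      · exact ⟨b, hb, fun p hp hpb => lt_of_lt_of_le (h1 p hp hpb) hs.1⟩
    · have hXcard : X.card = (X.map (Function.Embedding.subtype _)).card := (card_map _).symm
      by_cases hlow : ∃ s < u, ((low r P).filter fun y => S y = s).card < m
      · -- the last slot before u which is not full
        obtain ⟨s, hs, hsc, hsmax⟩ : ∃ s < u, ((low r P).filter fun y => S y = s).card < m ∧
            ∀ s', s < s' → s' < u → ¬ ((low r P).filter fun y => S y = s').card < m := by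
          obtain ⟨s0, hs0, hsc0⟩ := hlow
          have hne : ((range u).filter fun s =>
              ((low r P).filter fun y => S y = s).card < m).Nonempty :=
            ⟨s0, by rw [mem_filter, mem_range]; exact ⟨hs0, hsc0⟩⟩
          obtain ⟨s, hs, hmax⟩ := exists_max_image _ (fun s => s) hne
          rw [mem_filter, mem_range] at hs
          refine ⟨s, hs.1, hs.2, ?_⟩
          intro s' hs' hs'u hc
          have := hmax s' (by rw [mem_filter, mem_range]; exact ⟨hs'u, hc⟩)
          omega
        have h5 := g4 s (by omega) hsc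
        have h6 := hsum (s + 1) (by omega)
        have h7 : ∑ s' ∈ Ico (s + 1) e, (m - ((low r P).filter fun y => S y = s').card) =
            ∑ s' ∈ Ico u e, (m - ((low r P).filter fun y => S y = s').card) := by
          rw [← sum_Ico_consecutive _ (by omega : s + 1 ≤ u) h2]
          have : ∑ s' ∈ Ico (s + 1) u, (m - ((low r P).filter fun y => S y = s').card) = 0 := by
            apply sum_eq_zero
            intro s' hs'
            rw [mem_Ico] at hs'
            have := hsmax s' (by omega) hs'.2
            omega
          rw [this, zero_add]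
        have h8 : (X.map (Function.Embedding.subtype _)).card +
            ((low r P).filter fun y => s + 1 ≤ S y).card ≤ m * (e - (s + 1)) := by
          refine le_trans ?_ h5
          rw [← card_union_of_disjoint]
          · apply card_le_card
            intro y hy
            rw [mem_union] at hy
            rw [mem_filter]
            rcases hy with hy | hy
            · rw [mem_map] at hy
              obtain ⟨b, hb, rfl⟩ := hy
              have hb' := b.2
              rw [mem_filter] at hb'
              refine ⟨hb'.1, Or.inl ?_⟩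
              obtain ⟨p, hp, hpb, hps⟩ := h3 s hs b hb
              exact ⟨p, hp, hps, hpb⟩
            · rw [mem_filter] at hy
              exact ⟨hlowsub hy.1, Or.inr ⟨hy.1, by omega⟩⟩
          · rw [disjoint_left]
            intro y hy hy'
            rw [mem_map] at hy
            obtain ⟨b, hb, rfl⟩ := hy
            rw [mem_filter] at hy'
            have hb' := b.2
            rw [mem_filter] at hb'
            exact hb'.2 hy'.1
        rw [h7] at h6
        rw [hXcard]
        omega
      · -- all slots before u are full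
        push Not at hlow
        have h6 := hsum 0 (Nat.zero_le _)
        have h7 : ∑ s' ∈ Ico 0 e, (m - ((low r P).filter fun y => S y = s').card) =
            ∑ s' ∈ Ico u e, (m - ((low r P).filter fun y => S y = s').card) := by
          rw [← sum_Ico_consecutive _ (Nat.zero_le u) h2]
          have : ∑ s' ∈ Ico 0 u, (m - ((low r P).filter fun y => S y = s').card) = 0 := by
            apply sum_eq_zero
            intro s' hs'
            rw [mem_Ico] at hs'
            have := hlow s' hs'.2
            omega
          rw [this, zero_add]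
        have h8 : ((low r P).filter fun y => 0 ≤ S y) = low r P :=
          filter_true_of_mem fun x _ => Nat.zero_le _
        rw [h7, h8, Nat.sub_zero] at h6
        have h9 : X.card ≤ (P.filter fun b => b ∉ low r P).card := by
          rw [hXcard]
          apply card_le_card
          intro y hy
          rw [mem_map] at hy
          obtain ⟨b, hb, rfl⟩ := hy
          exact b.2
        omega)
  -- the schedule
  let Sf : J → ℕ := fun y => if y ∈ low r P then S y else
    if hb : y ∈ P.filter (fun b => b ∉ low r P) then (g ⟨y, hb⟩).1 else 0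
  have hf1 : ∀ y ∈ low r P, Sf y = S y := fun y hy => if_pos hy
  have hf2 : ∀ y (hb : y ∈ P.filter (fun b => b ∉ low r P)), Sf y = (g ⟨y, hb⟩).1 := by
    intro y hb
    have h1 : y ∉ low r P := by
      rw [mem_filter] at hb
      exact hb.2
    show (if y ∈ low r P then S y else _) = _
    rw [if_neg h1, dif_pos hb]
  have hlt : ∀ y ∈ P, Sf y < e := by
    intro y hy
    by_cases hyl : y ∈ low r P
    · rw [hf1 y hyl]
      exact g1 y hyl
    · have hb : y ∈ P.filter (fun b => b ∉ low r P) := mem_filter.2 ⟨hy, hyl⟩
      rw [hf2 y hb]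
      have := (hg2 ⟨y, hb⟩).1
      rw [mem_Ico] at this
      exact this.2
  have hle : ∀ t < e, (P.filter fun j => Sf j = t).card ≤ m := by
    intro t ht
    have h1 : ((P.filter fun j => Sf j = t).filter fun j => j ∈ low r P) ⊆
        (low r P).filter fun y => S y = t := by
      intro y hy
      rw [mem_filter, mem_filter] at hy
      rw [mem_filter]
      obtain ⟨⟨_, hy2⟩, hy3⟩ := hy
      rw [hf1 y hy3] at hy2
      exact ⟨hy3, hy2⟩
    have h2 : ((P.filter fun j => Sf j = t).filter fun j => j ∉ low r P).card ≤
        (range (m - ((low r P).filter fun y => S y = t).card)).card := by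
      apply card_le_card_of_injOn (fun y => if hb : y ∈ P.filter (fun b => b ∉ low r P) then
        (g ⟨y, hb⟩).2 else 0)
      · intro y hy
        have hy' : y ∈ (P.filter fun j => Sf j = t).filter fun j => j ∉ low r P := hy
        rw [mem_filter, mem_filter] at hy'
        have hb : y ∈ P.filter (fun b => b ∉ low r P) := mem_filter.2 ⟨hy'.1.1, hy'.2⟩
        have h3 := hy'.1.2
        rw [hf2 y hb] at h3
        have h4 := (hg2 ⟨y, hb⟩).2.2
        rw [h3] at h4
        have h5 : (if hb : y ∈ P.filter (fun b => b ∉ low r P) then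
          (g ⟨y, hb⟩).2 else 0) = (g ⟨y, hb⟩).2 := dif_pos hb
        show (if hb : y ∈ P.filter (fun b => b ∉ low r P) then
          (g ⟨y, hb⟩).2 else 0) ∈ (range _ : Finset ℕ)
        rw [h5, mem_range]
        exact h4
      · intro x hx y hy hxy
        have hx' : x ∈ (P.filter fun j => Sf j = t).filter fun j => j ∉ low r P := hx
        have hy' : y ∈ (P.filter fun j => Sf j = t).filter fun j => j ∉ low r P := hy
        rw [mem_filter, mem_filter] at hx' hy'
        have hb : y ∈ P.filter (fun b => b ∉ low r P) := mem_filter.2 ⟨hy'.1.1, hy'.2⟩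
        have hb' : x ∈ P.filter (fun b => b ∉ low r P) := mem_filter.2 ⟨hx'.1.1, hx'.2⟩
        have h3 := hy'.1.2
        have h4 := hx'.1.2
        rw [hf2 y hb] at h3
        rw [hf2 x hb'] at h4
        have h5 : (if hb : y ∈ P.filter (fun b => b ∉ low r P) then
          (g ⟨y, hb⟩).2 else 0) = (g ⟨y, hb⟩).2 := dif_pos hb
        have h6 : (if hb : x ∈ P.filter (fun b => b ∉ low r P) then
          (g ⟨x, hb⟩).2 else 0) = (g ⟨x, hb'⟩).2 := dif_pos hb'
        have h7 : (g ⟨x, hb'⟩).2 = (g ⟨y, hb⟩).2 := by
          rw [← h5, ← h6]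
          exact hxy
        have h8 := hg1 (Prod.ext (h4.trans h3.symm) h7)
        exact congrArg Subtype.val h8
    rw [card_range] at h2
    have h3 := card_filter_add_card_filter_not (s := P.filter fun j => Sf j = t)
      (fun j => j ∈ low r P)
    have h4 := card_le_card h1
    have h5 := g2 t ht
    omega
  refine ⟨Sf, hlt, ?_, ?_⟩
  · have htot : ∑ t ∈ range e, (P.filter fun j => Sf j = t).card = ∑ _t ∈ range e, m := by
      rw [sum_const, card_range, smul_eq_mul, mul_comm, ← hcard]
      symm
      apply card_eq_sum_card_fiberwise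
      intro x hx
      have : Sf x ∈ range e := mem_range.2 (hlt x hx)
      exact this
    have h1 := (sum_eq_sum_iff_of_le (fun t ht => hle t (mem_range.1 ht))).1 htot
    intro t ht
    exact h1 t (mem_range.2 ht)
  · intro i hi j hj hij
    have hil : i ∈ low r P := mem_low.2 ⟨hi, j, hj, hij⟩
    rw [hf1 i hil]
    by_cases hjl : j ∈ low r P
    · rw [hf1 j hjl]
      exact g3 i hil j hjl hij
    · have hb : j ∈ P.filter (fun b => b ∉ low r P) := mem_filter.2 ⟨hj, hjl⟩
      rw [hf2 j hb]
      exact (hg2 ⟨j, hb⟩).2.1 i hil hij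

end Pool.Agent.Helper57.PL
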